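import Pool.Agent.H95.VG.Targets2
import Pool.Agent.H95.VG.Targets3
import Pool.Agent.H95.VG.Targets1

/-!
Module CLH of the project on MP_6803f2_an: transition maps.
-/

open MeasureTheory Set Filter Topology
open scoped ENNReal NNReal ContDiff ComplexConjugate

namespace Pool.Agent.H4.VG

open Pool.Agent.H95.VG

variable {n : ℕ} {X : Type} [TopologicalSpace X] {ι : Type} (A : Atl n X ι)

lemma ball_target (a : ι) : Metric.ball (0 : V n) 2 ⊆ (A.φ a).target :=
  (Metric.ball_subset_closedBall.trans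
    (Metric.closedBall_subset_closedBall (by norm_num))).trans (A.ball a)

lemma tdo_source (a b : ι) : tdo A a b ⊆ ((A.φ a).symm.trans (A.φ b)).source := by
  rintro y ⟨h1, h2, -⟩
  exact ⟨ball_target A a h1, h2⟩

lemma tdo_open (a b : ι) : IsOpen (tdo A a b) := by
  have h : tdo A a b = Metric.ball (0 : V n) 2 ∩ (((A.φ a).symm.trans (A.φ b)).source ∩
      ((A.φ a).symm.trans (A.φ b)) ⁻¹' (Metric.ball (0 : V n) 2)) := by
    ext y
    constructor
    · rintro ⟨h1, h2, h3⟩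
      exact ⟨h1, ⟨ball_target A a h1, h2⟩, h3⟩
    · rintro ⟨h1, ⟨-, h2⟩, h3⟩
      exact ⟨h1, h2, h3⟩
  rw [h]
  exact Metric.isOpen_ball.inter
    (((A.φ a).symm.trans (A.φ b)).isOpen_inter_preimage Metric.isOpen_ball)

lemma tr_diff (a b : ι) : DifferentiableOn ℂ (tr A a b) (tdo A a b) :=
  (A.hol a b).mono (tdo_source A a b)

lemma symm_tr {a b : ι} {y : V n} (hy : y ∈ tdo A a b) :
    (A.φ b).symm (tr A a b y) = (A.φ a).symm y := (A.φ b).left_inv hy.2.1

lemma tr_tr {a b : ι} {y : V n} (hy : y ∈ tdo A a b) : tr A b a (tr A a b y) = y := by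
  rw [tr, symm_tr A hy]
  exact (A.φ a).right_inv (ball_target A a hy.1)

lemma tr_maps (a b : ι) : MapsTo (tr A a b) (tdo A a b) (tdo A b a) := by
  intro y hy
  refine ⟨hy.2.2, ?_, ?_⟩
  · rw [symm_tr A hy]
    exact (A.φ a).map_target (ball_target A a hy.1)
  · rw [tr_tr A hy]
    exact hy.1

lemma tr_comp {a b : ι} (c : ι) {y : V n} (hy : y ∈ tdo A a b) :
    tr A b c (tr A a b y) = tr A a c y := by
  rw [tr, symm_tr A hy, tr]

lemma tr_inj (a b : ι) : InjOn (tr A a b) (tdo A a b) := by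
  intro x hx y hy h
  rw [← tr_tr A hx, ← tr_tr A hy, h]

lemma tr_diffAt {a b : ι} {y : V n} (hy : y ∈ tdo A a b) : DifferentiableAt ℂ (tr A a b) y :=
  (tr_diff A a b).differentiableAt ((tdo_open A a b).mem_nhds hy)

lemma tr_diffAtR {a b : ι} {y : V n} (hy : y ∈ tdo A a b) : DifferentiableAt ℝ (tr A a b) y :=
  (tr_diffAt A hy).restrictScalars ℝ

lemma tr_fderivR {a b : ι} {y : V n} (hy : y ∈ tdo A a b) :
    (fderiv ℝ (tr A b a) (tr A a b y)).comp (fderiv ℝ (tr A a b) y) =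
      ContinuousLinearMap.id ℝ (V n) := by
  have h1 := fderiv_comp y (tr_diffAtR A (tr_maps A a b hy)) (tr_diffAtR A hy)
  rw [← h1]
  have h2 : (tr A b a ∘ tr A a b) =ᶠ[𝓝 y] id := by
    filter_upwards [(tdo_open A a b).mem_nhds hy] with x hx
    exact tr_tr A hx
  rw [h2.fderiv_eq, fderiv_id]

lemma tr_fderivC {a b : ι} {y : V n} (hy : y ∈ tdo A a b) :
    (fderiv ℂ (tr A b a) (tr A a b y)).comp (fderiv ℂ (tr A a b) y) =
      ContinuousLinearMap.id ℂ (V n) := by
  have h1 := fderiv_comp y (tr_diffAt A (tr_maps A a b hy)) (tr_diffAt A hy)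
  rw [← h1]
  have h2 : (tr A b a ∘ tr A a b) =ᶠ[𝓝 y] id := by
    filter_upwards [(tdo_open A a b).mem_nhds hy] with x hx
    exact tr_tr A hx
  rw [h2.fderiv_eq, fderiv_id]

lemma tr_detR {a b : ι} {y : V n} (hy : y ∈ tdo A a b) : (fderiv ℝ (tr A a b) y).det ≠ 0 := by
  intro h
  have h1 := congrArg (fun f : V n →L[ℝ] V n => LinearMap.det (f : V n →ₗ[ℝ] V n))
    (tr_fderivR A hy)
  have h2 : LinearMap.det (((fderiv ℝ (tr A b a) (tr A a b y)).comp
      (fderiv ℝ (tr A a b) y) : V n →L[ℝ] V n) : V n →ₗ[ℝ] V n) =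
      LinearMap.det (fderiv ℝ (tr A b a) (tr A a b y) : V n →ₗ[ℝ] V n) *
        LinearMap.det (fderiv ℝ (tr A a b) y : V n →ₗ[ℝ] V n) := by
    rw [← LinearMap.det_comp]
    rfl
  simp only [h2, ContinuousLinearMap.coe_id, LinearMap.det_id] at h1
  rw [ContinuousLinearMap.det] at h
  rw [h, mul_zero] at h1
  exact zero_ne_one h1

lemma jac_eq (Y : V n → V n) (z : V n) :
    jac Y z = LinearMap.toMatrix' (fderiv ℂ Y z : V n →ₗ[ℂ] V n) := by
  ext i j
  rw [LinearMap.toMatrix'_apply]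
  simp only [jac, Matrix.of_apply, ek]
  congr 2

lemma tr_detC {a b : ι} {y : V n} (hy : y ∈ tdo A a b) : (jac (tr A a b) y).det ≠ 0 := by
  intro h
  have h1 := congrArg (fun f : V n →L[ℂ] V n => LinearMap.det (f : V n →ₗ[ℂ] V n))
    (tr_fderivC A hy)
  have h2 : LinearMap.det (((fderiv ℂ (tr A b a) (tr A a b y)).comp
      (fderiv ℂ (tr A a b) y) : V n →L[ℂ] V n) : V n →ₗ[ℂ] V n) =
      LinearMap.det (fderiv ℂ (tr A b a) (tr A a b y) : V n →ₗ[ℂ] V n) *
        LinearMap.det (fderiv ℂ (tr A a b) y : V n →ₗ[ℂ] V n) := by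
    rw [← LinearMap.det_comp]
    rfl
  simp only [h2, ContinuousLinearMap.coe_id, LinearMap.det_id] at h1
  rw [jac_eq, LinearMap.det_toMatrix'] at h
  rw [h, mul_zero] at h1
  exact zero_ne_one h1

lemma tr_det_cont (hSMO : T_SMO) (a b : ι) :
    ContinuousOn (fun z => (fderiv ℝ (tr A a b) z).det) (tdo A a b) := by
  have h := (hSMO n (V n) _ _ (tdo_open A a b) (tr_diff A a b)).2.1
  have h2 := h.continuousOn_fderiv_of_isOpen (tdo_open A a b) (by norm_num)
  exact ContinuousLinearMap.continuous_det.comp_continuousOn h2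

lemma locint_comp (hSMO : T_SMO) (a b : ι) {F : V n → ℝ}
    (hF : LocallyIntegrableOn F (Metric.ball (0 : V n) 2)) :
    LocallyIntegrableOn (fun y => F (tr A a b y)) (tdo A a b) := by
  rw [locallyIntegrableOn_iff (tdo_open A a b).isLocallyClosed]
  intro K hK hKc
  have hcont : ContinuousOn (tr A a b) K := (tr_diff A a b).continuousOn.mono hK
  have h1 : IntegrableOn F (tr A a b '' K) := by
    rw [locallyIntegrableOn_iff Metric.isOpen_ball.isLocallyClosed] at hF
    refine hF _ ?_ (hKc.image_of_continuousOn hcont)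
    rintro _ ⟨y, hy, rfl⟩
    exact (hK hy).2.2
  rw [integrableOn_image_iff_integrableOn_abs_det_fderiv_smul volume hKc.measurableSet
    (fun x hx => (tr_diffAtR A (hK hx)).hasFDerivAt.hasFDerivWithinAt)
    ((tr_inj A a b).mono hK)] at h1
  have h2 : ContinuousOn (fun z => |(fderiv ℝ (tr A a b) z).det|⁻¹) K := by
    refine ContinuousOn.inv₀ (((tr_det_cont A hSMO a b).mono hK).abs) ?_
    intro z hz
    exact abs_ne_zero.2 (tr_detR A (hK hz))
  have h3 := h1.continuousOn_mul h2 hKc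
  refine (integrableOn_congr_fun ?_ hKc.measurableSet).1 h3
  intro z hz
  have h4 : |(fderiv ℝ (tr A a b) z).det| ≠ 0 := abs_ne_zero.2 (tr_detR A (hK hz))
  simp only [smul_eq_mul]
  rw [← mul_assoc, inv_mul_cancel₀ h4, one_mul]

lemma null_pre {a b : ι} {N : Set (V n)} (hN : volume N = 0) :
    volume {y | y ∈ tdo A a b ∧ tr A a b y ∈ N} = 0 := by
  have h1 : volume (tr A b a '' (N ∩ tdo A b a)) = 0 := by
    refine addHaar_image_eq_zero_of_differentiableOn_of_addHaar_eq_zero volume ?_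
      (measure_mono_null inter_subset_left hN)
    intro x hx
    exact (tr_diffAtR A hx.2).differentiableWithinAt
  refine measure_mono_null ?_ h1
  rintro y ⟨hy, hyN⟩
  exact ⟨tr A a b y, ⟨hyN, tr_maps A a b hy⟩, tr_tr A hy⟩

end Pool.Agent.H4.VG
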