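import Pool.Agent.H4.VG.Trans

/-!
Module CLH of the project on MP_6803f2_an.
-/

open MeasureTheory Set Filter Topology
open scoped ENNReal NNReal ContDiff ComplexConjugate

namespace Pool.Agent.H4.VG

open Pool.Agent.H95.VG

variable {n : ℕ}

/-- `u` is almost everywhere equal to `c` near `z` -/
def Ev (u : V n → ℝ) (z : V n) (c : ℝ) : Prop :=
  ∃ r : ℝ, 0 < r ∧ ∀ᵐ x, x ∈ Metric.ball z r → u x = c

lemma Ev.unique {u : V n → ℝ} {z : V n} {c c' : ℝ} (h : Ev u z c) (h' : Ev u z c') : c = c' := by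
  obtain ⟨r, hr, h⟩ := h
  obtain ⟨r', hr', h'⟩ := h'
  by_contra hne
  have h1 : ∀ᵐ x, x ∉ Metric.ball z (min r r') := by
    filter_upwards [h, h'] with x hx hx' hmem
    apply hne
    rw [← hx (Metric.ball_subset_ball (min_le_left _ _) hmem),
      ← hx' (Metric.ball_subset_ball (min_le_right _ _) hmem)]
  have h2 : volume (Metric.ball z (min r r')) = 0 := by
    have h3 := ae_iff.1 h1
    have h4 : {a | ¬ a ∉ Metric.ball z (min r r')} = Metric.ball z (min r r') := by
      ext a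
      exact not_not
    rwa [h4] at h3
  exact (Metric.measure_ball_pos volume z (lt_min hr hr')).ne' h2

lemma Ev.near {u : V n → ℝ} {z : V n} {c : ℝ} (h : Ev u z c) : ∀ᶠ z' in 𝓝 z, Ev u z' c := by
  obtain ⟨r, hr, h⟩ := h
  filter_upwards [Metric.ball_mem_nhds z (half_pos hr)] with z' hz'
  refine ⟨r / 2, half_pos hr, ?_⟩
  filter_upwards [h] with x hx hmem
  apply hx
  rw [Metric.mem_ball] at *
  calc dist x z ≤ dist x z' + dist z' z := dist_triangle _ _ _
    _ < r / 2 + r / 2 := add_lt_add hmem hz'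
    _ = r := by ring

lemma Ev.add {u u' : V n → ℝ} {z : V n} {c c' : ℝ} (h : Ev u z c) (h' : Ev u' z c') :
    Ev (fun x => u x + u' x) z (c + c') := by
  obtain ⟨r, hr, h⟩ := h
  obtain ⟨r', hr', h'⟩ := h'
  refine ⟨min r r', lt_min hr hr', ?_⟩
  filter_upwards [h, h'] with x hx hx' hmem
  rw [hx (Metric.ball_subset_ball (min_le_left _ _) hmem),
    hx' (Metric.ball_subset_ball (min_le_right _ _) hmem)]

lemma Ev.congr {u u' : V n → ℝ} {z : V n} {c : ℝ} (h : Ev u z c) {U : Set (V n)} (hU : U ∈ 𝓝 z)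
    (hu : ∀ x ∈ U, u x = u' x) : Ev u' z c := by
  obtain ⟨r, hr, h⟩ := h
  obtain ⟨r', hr', hU⟩ := Metric.mem_nhds_iff.1 hU
  refine ⟨min r r', lt_min hr hr', ?_⟩
  filter_upwards [h] with x hx hmem
  rw [← hu x (hU (Metric.ball_subset_ball (min_le_right _ _) hmem)),
    hx (Metric.ball_subset_ball (min_le_left _ _) hmem)]

variable {X : Type} [TopologicalSpace X] {ι : Type} (A : Atl n X ι)

lemma Ev.comp {a b : ι} {u : V n → ℝ} {y : V n} {c : ℝ} (hy : y ∈ tdo A a b)
    (h : Ev u (tr A a b y) c) : Ev (fun x => u (tr A a b x)) y c := by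
  obtain ⟨r, hr, h⟩ := h
  have hc : ContinuousAt (tr A a b) y := (tr_diffAt A hy).continuousAt
  have h1 : {x | x ∈ tdo A a b ∧ tr A a b x ∈ Metric.ball (tr A a b y) r} ∈ 𝓝 y :=
    Filter.inter_mem ((tdo_open A a b).mem_nhds hy)
      (hc.preimage_mem_nhds (Metric.ball_mem_nhds _ hr))
  obtain ⟨r', hr', h1⟩ := Metric.mem_nhds_iff.1 h1
  refine ⟨r', hr', ?_⟩
  rw [ae_iff] at h ⊢
  refine measure_mono_null ?_ (null_pre A (a := a) (b := b) h)
  intro x hx
  simp only [mem_ofPred_eq, Classical.not_imp] at hx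
  obtain ⟨h2, h3⟩ := h1 hx.1
  refine ⟨h2, ?_⟩
  simp only [mem_ofPred_eq, Classical.not_imp]
  exact ⟨h3, hx.2⟩

/-- the difference of the potentials -/
noncomputable def UU (F : ι → V n → ℝ) (a b : ι) (y : V n) : ℝ := F a y - F b (tr A a b y)

/-- the local constants -/
noncomputable def cc (F : ι → V n → ℝ) (a b : ι) (y : V n) : ℝ :=
  Classical.epsilon (fun c => Ev (UU A F a b) y c)

/-- all the differences are almost everywhere locally constant -/
def Loc (F : ι → V n → ℝ) : Prop := ∀ a b, ∀ y ∈ tdo A a b, ∃ c, Ev (UU A F a b) y c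

variable {A}

lemma cc_spec {F : ι → V n → ℝ} (hF : Loc A F) {a b : ι} {y : V n} (hy : y ∈ tdo A a b) :
    Ev (UU A F a b) y (cc A F a b y) := Classical.epsilon_spec (hF a b y hy)

lemma cc_near {F : ι → V n → ℝ} (hF : Loc A F) {a b : ι} {y : V n} (hy : y ∈ tdo A a b) :
    ∀ᶠ y' in 𝓝 y, cc A F a b y' = cc A F a b y := by
  filter_upwards [(cc_spec hF hy).near, (tdo_open A a b).mem_nhds hy] with y' h1 h2
  exact (cc_spec hF h2).unique h1

lemma cc_cocycle {F : ι → V n → ℝ} (hF : Loc A F) {a b c : ι} {y : V n} (hab : y ∈ tdo A a b)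
    (hac : y ∈ tdo A a c) (hbc : tr A a b y ∈ tdo A b c) :
    cc A F a c y = cc A F a b y + cc A F b c (tr A a b y) := by
  have h1 := (cc_spec hF hab).add (Ev.comp A hab (cc_spec hF hbc))
  refine (cc_spec hF hac).unique (h1.congr ((tdo_open A a b).mem_nhds hab) ?_)
  intro x hx
  simp only [UU]
  rw [tr_comp A c hx]
  ring

lemma cc_ae {F : ι → V n → ℝ} (hF : Loc A F) (a b : ι) :
    ∀ᵐ y ∂(volume.restrict (tdo A a b)), UU A F a b y = cc A F a b y := by
  rw [ae_restrict_iff' (tdo_open A a b).measurableSet, ae_iff]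
  apply measure_null_of_locally_null
  intro y hy
  simp only [mem_ofPred_eq, Classical.not_imp] at hy
  obtain ⟨r, hr, h⟩ := cc_spec hF hy.1
  have h1 := cc_near hF hy.1
  obtain ⟨r', hr', h1⟩ := Metric.eventually_nhds_iff_ball.1 h1
  refine ⟨_, inter_mem_nhdsWithin _ (Metric.ball_mem_nhds y (lt_min hr hr')), ?_⟩
  rw [ae_iff] at h
  refine measure_mono_null ?_ h
  rintro x ⟨hx, hx'⟩
  simp only [mem_ofPred_eq, Classical.not_imp] at hx ⊢
  refine ⟨Metric.ball_subset_ball (min_le_left _ _) hx', ?_⟩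
  rw [← h1 x (Metric.ball_subset_ball (min_le_right _ _) hx')]
  exact hx.2

/-! ### The smooth potentials -/

open Classical in
/-- the smooth potentials -/
noncomputable def hh [Fintype ι] (A : Atl n X ι) (ρ : ι → X → ℝ) (F : ι → V n → ℝ) (a : ι)
    (y : V n) : ℝ :=
  ∑ b, ρ b ((A.φ a).symm y) * (if y ∈ tdo A a b then cc A F a b y else 0)

lemma hh_smooth [T2Space X] [Fintype ι] {ρ : ι → X → ℝ} (hρ : PU A ρ) {F : ι → V n → ℝ}
    (hF : Loc A F) (a : ι) : ContDiffOn ℝ ∞ (hh A ρ F a) (Metric.ball (0 : V n) 2) := by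
  intro y hy
  apply ContDiffAt.contDiffWithinAt
  have hyt : y ∈ (A.φ a).target := ball_target A a hy
  refine ContDiffAt.sum fun b _ => ?_
  by_cases hb : y ∈ tdo A a b
  · have h1 : ContDiffAt ℝ ∞ (fun y' => ρ b ((A.φ a).symm y') * cc A F a b y) y := by
      refine ContDiffAt.mul ?_ contDiffAt_const
      exact (hρ.smooth b a).contDiffAt ((A.φ a).open_target.mem_nhds hyt)
    refine h1.congr_of_eventuallyEq ?_
    filter_upwards [cc_near hF hb, (tdo_open A a b).mem_nhds hb] with y' h2 h3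
    rw [if_pos h3, h2]
  · have hS : IsClosed ((A.φ b).symm '' Metric.closedBall (0 : V n) (5 / 4)) := by
      refine ((isCompact_closedBall (0 : V n) (5 / 4)).image_of_continuousOn ?_).isClosed
      exact (A.φ b).continuousOn_symm.mono
        ((Metric.closedBall_subset_closedBall (by norm_num)).trans (A.ball b))
    have hx : (A.φ a).symm y ∉ (A.φ b).symm '' Metric.closedBall (0 : V n) (5 / 4) := by
      rintro ⟨w, hw, hwy⟩
      have hwt : w ∈ (A.φ b).target :=
        A.ball b (Metric.closedBall_subset_closedBall (by norm_num) hw)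
      apply hb
      refine ⟨hy, ?_, ?_⟩
      · rw [← hwy]
        exact (A.φ b).map_target hwt
      · rw [tr, ← hwy, (A.φ b).right_inv hwt]
        exact Metric.closedBall_subset_ball (by norm_num) hw
    have hc : ContinuousAt (A.φ a).symm y := (A.φ a).symm.continuousAt hyt
    have h1 := hc.preimage_mem_nhds (hS.isOpen_compl.mem_nhds hx)
    refine (contDiffAt_const (c := (0 : ℝ))).congr_of_eventuallyEq ?_
    filter_upwards [h1] with y' hy'
    have h2 : ρ b ((A.φ a).symm y') = 0 := by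
      by_contra hne
      obtain ⟨h3, h4⟩ := hρ.supp b _ hne
      exact hy' ⟨_, h4, (A.φ b).left_inv h3⟩
    rw [h2, zero_mul]

open Classical in
lemma hh_sub [Fintype ι] {ρ : ι → X → ℝ} (hρ : PU A ρ) {F : ι → V n → ℝ}
    (hF : Loc A F) {a b : ι} {y : V n} (hy : y ∈ tdo A a b) :
    hh A ρ F a y - hh A ρ F b (tr A a b y) = cc A F a b y := by
  rw [hh, hh, ← Finset.sum_sub_distrib, symm_tr A hy]
  have h1 : ∀ c : ι, ρ c ((A.φ a).symm y) * (if y ∈ tdo A a c then cc A F a c y else 0) -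
      ρ c ((A.φ a).symm y) * (if tr A a b y ∈ tdo A b c then cc A F b c (tr A a b y) else 0) =
      ρ c ((A.φ a).symm y) * cc A F a b y := by
    intro c
    by_cases hc : ρ c ((A.φ a).symm y) = 0
    · rw [hc]
      ring
    · obtain ⟨h2, h3⟩ := hρ.supp c _ hc
      have h4 : tr A a c y ∈ Metric.ball (0 : V n) 2 :=
        Metric.closedBall_subset_ball (by norm_num) h3
      have hac : y ∈ tdo A a c := ⟨hy.1, h2, h4⟩
      have hbc : tr A a b y ∈ tdo A b c := by
        refine ⟨hy.2.2, ?_, ?_⟩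
        · rw [symm_tr A hy]
          exact h2
        · rw [tr_comp A c hy]
          exact h4
      rw [if_pos hac, if_pos hbc, cc_cocycle hF hy hac hbc]
      ring
  rw [Finset.sum_congr rfl fun c _ => h1 c, ← Finset.sum_mul, hρ.sum, one_mul]

lemma hh_clo [T2Space X] [Fintype ι] {ρ : ι → X → ℝ} (hρ : PU A ρ) {F : ι → V n → ℝ}
    (hF : Loc A F) : Clo A (hh A ρ F) := by
  refine ⟨hh_smooth hρ hF, ?_⟩
  intro a b x hxa hxb hya hyb
  have hmem : ∀ x', x' ∈ (A.φ a).source → x' ∈ (A.φ b).source →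
      A.φ a x' ∈ Metric.ball (0 : V n) 2 → A.φ b x' ∈ Metric.ball (0 : V n) 2 →
      A.φ a x' ∈ tdo A a b ∧ tr A a b (A.φ a x') = A.φ b x' := by
    intro x' h1 h2 h3 h4
    have h5 : (A.φ a).symm (A.φ a x') = x' := (A.φ a).left_inv h1
    have h6 : tr A a b (A.φ a x') = A.φ b x' := by rw [tr, h5]
    refine ⟨⟨h3, ?_, ?_⟩, h6⟩
    · rw [h5]
      exact h2
    · rw [h6]
      exact h4
  have hca : ContinuousAt (A.φ a) x := (A.φ a).continuousAt hxa
  have hcb : ContinuousAt (A.φ b) x := (A.φ b).continuousAt hxb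
  have e1 := (A.φ a).open_source.mem_nhds hxa
  have e2 := (A.φ b).open_source.mem_nhds hxb
  have e3 := hca.preimage_mem_nhds (Metric.isOpen_ball.mem_nhds hya)
  have e4 := hcb.preimage_mem_nhds (Metric.isOpen_ball.mem_nhds hyb)
  obtain ⟨h1, h2⟩ := hmem x hxa hxb hya hyb
  have e5 := hca.eventually (cc_near hF h1)
  filter_upwards [e1, e2, e3, e4, e5] with x' f1 f2 f3 f4 f5
  obtain ⟨h1', h2'⟩ := hmem x' f1 f2 f3 f4
  rw [← h2, ← h2', hh_sub hρ hF h1, hh_sub hρ hF h1', f5]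

lemma wgr_mono {Q Q' : Set (V n)} {F : V n → ℝ} {β : V n → V n →L[ℝ] ℝ} (h : WGr Q F β)
    (hQ : Q' ⊆ Q) : WGr Q' F β := fun K hK hKc => h K (hK.trans hQ) hKc

lemma wgr_congr {Q : Set (V n)} {F : V n → ℝ}
    {β β' : V n → V n →L[ℝ] ℝ} (h : WGr Q F β) (hβ : ∀ᵐ y ∂(volume.restrict Q), β y = β' y) :
    WGr Q F β' := by
  intro K hK hKc
  obtain ⟨G, h1, h2, h3⟩ := h K hK hKc
  refine ⟨G, h1, h2, ?_⟩
  have h4 : ∀ j, ∫⁻ z in K, ENNReal.ofReal ‖fderiv ℝ (G j) z - β' z‖ =
      ∫⁻ z in K, ENNReal.ofReal ‖fderiv ℝ (G j) z - β z‖ := by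
    intro j
    apply lintegral_congr_ae
    have h5 : ∀ᵐ y ∂(volume.restrict K), β y = β' y :=
      ae_mono (Measure.restrict_mono hK le_rfl) hβ
    filter_upwards [h5] with y hy
    rw [hy]
  simp only [h4]
  exact h3

theorem clh (hSMO : T_SMO) (hPU : T_PU) (hPOI : T_POI) (hWG0 : T_WG0) (hWGC : T_WGC) :
    T_CLH := by
  intro n X _ _ _ ι _ A β hint hcl htr
  obtain ⟨ρ, hρ⟩ := hPU n X ι A
  have h1 : ∀ a, ∃ F : V n → ℝ, LocallyIntegrableOn F (Metric.ball (0 : V n) 2) ∧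
      WGr (Metric.ball (0 : V n) 2) F (β a) := fun a =>
    hPOI n _ (β a) Metric.isOpen_ball (convex_ball _ _) ⟨0, Metric.mem_ball_self (by norm_num)⟩
      (hint a).locallyIntegrableOn (hcl a)
  choose F hF1 hF2 using h1
  have hLoc : Loc A F := by
    intro a b y hy
    have w1 : WGr (tdo A a b) (fun z => F b (tr A a b z))
        (fun z => (β b (tr A a b z)).comp (fderiv ℝ (tr A a b) z)) :=
      hWGC n (tdo A a b) (Metric.ball (0 : V n) 2) (tr A a b) (F b) (β b) (tdo_open A a b)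
        Metric.isOpen_ball (tr_diff A a b) (fun z hz => hz.2.2) (tr_inj A a b)
        (fun z hz => tr_detC A hz) (hF2 b)
    have w2 : WGr (tdo A a b) (F a) (β a) := wgr_mono (hF2 a) (fun z hz => hz.1)
    have w3 : WGr (tdo A a b) (fun z => F b (tr A a b z)) (β a) :=
      wgr_congr w1 ((htr a b).mono fun y hy => hy.symm)
    obtain ⟨r, hr, -, c, hc⟩ := hWG0 n (tdo A a b) (F a) (fun z => F b (tr A a b z)) (β a)
      (tdo_open A a b) ((hF1 a).mono_set (fun z hz => hz.1)) (locint_comp A hSMO a b (hF1 b))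
      ((hint a).locallyIntegrableOn.mono_set (fun z hz => hz.1)) w2 w3 y hy
    refine ⟨c, r, hr, ?_⟩
    rw [ae_restrict_iff' measurableSet_ball] at hc
    exact hc
  refine ⟨hh A ρ F, F, hh_clo hρ hLoc, hF1, hF2, ?_⟩
  intro a b
  filter_upwards [cc_ae hLoc a b, ae_restrict_mem (tdo_open A a b).measurableSet] with y h2 h3
  have h4 := hh_sub hρ hLoc h3
  rw [UU] at h2
  linarith

end Pool.Agent.H4.VG
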